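import Pool.Agent.V5helper21.FR.Sar

/-!
# Linear families of functions: derivatives and closedness of the set of bad parameters
-/

set_option autoImplicit false

open scoped Manifold ContDiff Topology
open MeasureTheory Filter Set Metric

universe u

namespace Pool.Agent.V5helper21.FR

open Pool.Agent.H718R2.G Pool.Agent.Y318.MN

section lin

variable {n : ℕ} {ι : Type} [Fintype ι] {f₀ : V n → ℝ} {f : ι → V n → ℝ} {T : Set (V n)}

theorem fd1 (h0 : ∀ v ∈ T, ContDiffAt ℝ 2 f₀ v) (hf : ∀ j, ∀ v ∈ T, ContDiffAt ℝ 2 (f j) v)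
    (c : ι → ℝ) {v : V n} (hv : v ∈ T) :
    HasFDerivAt (fun w => f₀ w + ∑ j, c j * f j w) (fderiv ℝ f₀ v + ∑ j, c j • fderiv ℝ (f j) v)
      v := by
  have h1 := ((h0 v hv).differentiableAt (by norm_num)).hasFDerivAt
  have h2 : HasFDerivAt (fun w => ∑ j, c j * f j w) (∑ j, c j • fderiv ℝ (f j) v) v := by
    refine HasFDerivAt.fun_sum fun j _ => ?_
    exact (((hf j v hv).differentiableAt (by norm_num)).hasFDerivAt).const_mul (c j)
  exact h1.add h2

theorem dfd (h0 : ∀ v ∈ T, ContDiffAt ℝ 2 f₀ v) {v : V n} (hv : v ∈ T) :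
    ContDiffAt ℝ 1 (fderiv ℝ f₀) v :=
  (h0 v hv).fderiv_right (m := 1) (by norm_num)

theorem fd2 (hT : IsOpen T) (h0 : ∀ v ∈ T, ContDiffAt ℝ 2 f₀ v)
    (hf : ∀ j, ∀ v ∈ T, ContDiffAt ℝ 2 (f j) v) (c : ι → ℝ) {v : V n} (hv : v ∈ T) :
    fderiv ℝ (fderiv ℝ (fun w => f₀ w + ∑ j, c j * f j w)) v =
      fderiv ℝ (fderiv ℝ f₀) v + ∑ j, c j • fderiv ℝ (fderiv ℝ (f j)) v := by
  have e : fderiv ℝ (fun w => f₀ w + ∑ j, c j * f j w) =ᶠ[𝓝 v]
      fun w => fderiv ℝ f₀ w + ∑ j, c j • fderiv ℝ (f j) w := by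
    filter_upwards [hT.mem_nhds hv] with w hw
    exact (fd1 h0 hf c hw).fderiv
  rw [e.fderiv_eq]
  have h1 := ((dfd h0 hv).differentiableAt (by norm_num)).hasFDerivAt
  have h2 : HasFDerivAt (fun w => ∑ j, c j • fderiv ℝ (f j) w)
      (∑ j, c j • fderiv ℝ (fderiv ℝ (f j)) v) v := by
    refine HasFDerivAt.fun_sum fun j _ => ?_
    exact (((dfd (hf j) hv).differentiableAt (by norm_num)).hasFDerivAt).const_smul (c j)
  exact (h1.add h2).fderiv

theorem bad_closed (hT : IsOpen T) (h0 : ∀ v ∈ T, ContDiffAt ℝ 2 f₀ v)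
    (hf : ∀ j, ∀ v ∈ T, ContDiffAt ℝ 2 (f j) v) {κ : Set (V n)} (hκ : IsCompact κ) (hκT : κ ⊆ T) :
    IsClosed {c : ι → ℝ | ∃ v ∈ κ, gd (fun w => f₀ w + ∑ j, c j * f j w) v = 0 ∧
      (hs (fun w => f₀ w + ∑ j, c j * f j w) v).det = 0} := by
  have : CompactSpace κ := isCompact_iff_compactSpace.1 hκ
  have c1 : ∀ g : V n → ℝ, (∀ v ∈ T, ContDiffAt ℝ 2 g v) →
      Continuous fun v : κ => fderiv ℝ g v := by
    intro g hg
    rw [continuous_iff_continuousAt]
    intro v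
    exact ContinuousAt.comp (f := fun v : κ => (v : V n)) (g := fderiv ℝ g)
      (dfd hg (hκT v.2)).continuousAt continuous_subtype_val.continuousAt
  have c2 : ∀ g : V n → ℝ, (∀ v ∈ T, ContDiffAt ℝ 2 g v) →
      Continuous fun v : κ => fderiv ℝ (fderiv ℝ g) v := by
    intro g hg
    rw [continuous_iff_continuousAt]
    intro v
    exact ContinuousAt.comp (f := fun v : κ => (v : V n)) (g := fderiv ℝ (fderiv ℝ g))
      ((dfd hg (hκT v.2)).fderiv_right (m := 0) (by norm_num)).continuousAt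
      continuous_subtype_val.continuousAt
  set D : (V n →L[ℝ] ℝ) →L[ℝ] V n :=
    (InnerProductSpace.toDual ℝ (V n)).symm.toContinuousLinearEquiv.toContinuousLinearMap with hD
  have k1 : Continuous fun p : (ι → ℝ) × κ =>
      D (fderiv ℝ f₀ p.2 + ∑ j, p.1 j • fderiv ℝ (f j) p.2) := by
    refine D.continuous.comp (((c1 _ h0).comp continuous_snd).add
      (continuous_finsetSum _ fun j _ => ?_))
    exact ((continuous_apply j).comp continuous_fst).smul ((c1 _ (hf j)).comp continuous_snd)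
  have k2 : Continuous fun p : (ι → ℝ) × κ =>
      (D.comp (fderiv ℝ (fderiv ℝ f₀) p.2 + ∑ j, p.1 j • fderiv ℝ (fderiv ℝ (f j)) p.2)).det := by
    refine ContinuousLinearMap.continuous_det.comp ?_
    refine Continuous.clm_comp continuous_const (((c2 _ h0).comp continuous_snd).add
      (continuous_finsetSum _ fun j _ => ?_))
    exact ((continuous_apply j).comp continuous_fst).smul ((c2 _ (hf j)).comp continuous_snd)
  have hcl : IsClosed {p : (ι → ℝ) × κ | D (fderiv ℝ f₀ p.2 + ∑ j, p.1 j • fderiv ℝ (f j) p.2) = 0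
      ∧ (D.comp (fderiv ℝ (fderiv ℝ f₀) p.2 +
        ∑ j, p.1 j • fderiv ℝ (fderiv ℝ (f j)) p.2)).det = 0} :=
    (isClosed_eq k1 continuous_const).inter (isClosed_eq k2 continuous_const)
  have key := isClosedMap_fst_of_compactSpace (X := ι → ℝ) (Y := κ) _ hcl
  convert key using 1
  ext c
  constructor
  · rintro ⟨v, hv, h1, h2⟩
    refine ⟨(c, ⟨v, hv⟩), ⟨?_, ?_⟩, rfl⟩
    · rw [← h1]
      show _ = D (fderiv ℝ (fun w => f₀ w + ∑ j, c j * f j w) v)
      rw [(fd1 h0 hf c (hκT hv)).fderiv]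
    · rw [← h2]
      show _ = (D.comp (fderiv ℝ (fderiv ℝ (fun w => f₀ w + ∑ j, c j * f j w)) v)).det
      rw [fd2 hT h0 hf c (hκT hv)]
  · rintro ⟨⟨c', v⟩, ⟨h1, h2⟩, rfl⟩
    refine ⟨v, v.2, ?_, ?_⟩
    · rw [← h1]
      show D (fderiv ℝ (fun w => f₀ w + ∑ j, c' j * f j w) v) = _
      rw [(fd1 h0 hf c' (hκT v.2)).fderiv]
    · rw [← h2]
      show (D.comp (fderiv ℝ (fderiv ℝ (fun w => f₀ w + ∑ j, c' j * f j w)) v)).det = _
      rw [fd2 hT h0 hf c' (hκT v.2)]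

end lin

end Pool.Agent.V5helper21.FR
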