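import Pool.Agent.V5helper25.PB.FDef

/-!
# Flows with a strict Lyapunov function and finitely many stationary points
-/

set_option autoImplicit false
set_option linter.unusedSectionVars false

open scoped Topology
open MeasureTheory Filter Set

universe u

namespace Pool.Agent.V5helper21.FR

open Pool.Agent.V5helper25.PB

variable {N : Type u} [TopologicalSpace N] [T2Space N] [CompactSpace N] {Φ : ℝ → N → N}

theorem cont_t (hΦ : FlowOn N Φ) (p : N) : Continuous fun t => Φ t p :=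
  hΦ.cont.comp (continuous_id.prodMk continuous_const)

theorem cont_p (hΦ : FlowOn N Φ) (t : ℝ) : Continuous (Φ t) :=
  hΦ.cont.comp (continuous_const.prodMk continuous_id)

theorem one_point (hΦ : FlowOn N Φ) {h : N → ℝ} (hc : Continuous h)
    (hm : ∀ p t, 0 ≤ t → h p ≤ h (Φ t p)) {S : Set N} (hS : S.Finite)
    (hs : ∀ q, q ∉ S → h q < h (Φ 1 q)) (p : N) : ∃ q ∈ S, omegaF Φ p ⊆ {q} := by
  have hmono : Monotone fun t => h (Φ t p) := by
    intro s t hst
    have h1 := hm (Φ s p) (t - s) (by linarith)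
    rw [← hΦ.add] at h1
    simpa using h1
  have hbd : BddAbove (range fun t => h (Φ t p)) := by
    obtain ⟨C, hC⟩ := (isCompact_univ (X := N)).bddAbove_image hc.continuousOn
    refine ⟨C, ?_⟩
    rintro _ ⟨t, rfl⟩
    exact hC ⟨_, mem_univ _, rfl⟩
  obtain ⟨L, hL⟩ : ∃ L, Tendsto (fun t => h (Φ t p)) atTop (𝓝 L) :=
    ⟨_, tendsto_atTop_ciSup hmono hbd⟩
  have hval : ∀ q ∈ omegaF Φ p, ∀ s : ℝ, h (Φ s q) = L := by
    intro q hq s
    have h1 : Tendsto (fun t => h (Φ s (Φ t p))) atTop (𝓝 L) := by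
      have h2 : (fun t => h (Φ s (Φ t p))) = fun t => h (Φ (s + t) p) := by
        funext t
        rw [hΦ.add]
      rw [h2]
      exact hL.comp (tendsto_atTop_add_const_left _ s tendsto_id)
    have hcs : Continuous fun x => h (Φ s x) := hc.comp (cont_p hΦ s)
    by_contra hne
    obtain ⟨A, B, hA, hB, hqA, hLB, hAB⟩ := t2_separation hne
    have h3 : ∀ᶠ t in atTop, h (Φ s (Φ t p)) ∈ B := h1 (hB.mem_nhds hLB)
    obtain ⟨T, hT⟩ := eventually_atTop.1 h3
    obtain ⟨t, ht, ht'⟩ := hq _ ((hA.preimage hcs).mem_nhds hqA) T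
    exact (Set.disjoint_left.1 hAB) ht' (hT t ht)
  have hsub : omegaF Φ p ⊆ S := by
    intro q hq
    by_contra hqS
    have h1 := hs q hqS
    have h2 := hval q hq 0
    rw [hΦ.zero] at h2
    rw [h2, hval q hq 1] at h1
    exact lt_irrefl _ h1
  obtain ⟨U, hU, hdis⟩ := hS.t2_separation
  -- eventually in the union
  have hev : ∃ T : ℝ, ∀ t, T ≤ t → Φ t p ∈ ⋃ q ∈ S, U q := by
    by_contra hcon
    push Not at hcon
    have hK : IsCompact (⋃ q ∈ S, U q)ᶜ :=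
      (isOpen_biUnion fun q _ => (hU q).2).isClosed_compl.isCompact
    have hfr : ∃ᶠ t in atTop, Φ t p ∈ (⋃ q ∈ S, U q)ᶜ := by
      rw [frequently_atTop]
      intro T
      obtain ⟨t, ht, ht'⟩ := hcon T
      exact ⟨t, ht, ht'⟩
    obtain ⟨x, hxK, hx⟩ := hK.exists_mapClusterPt_of_frequently hfr
    have hxo : x ∈ omegaF Φ p := by
      intro W hW T
      have h1 := (mapClusterPt_iff_frequently.1 hx) W hW
      obtain ⟨t, ht, ht'⟩ := frequently_atTop.1 h1 T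
      exact ⟨t, ht, ht'⟩
    exact hxK (mem_biUnion (hsub hxo) (hU x).1)
  obtain ⟨T, hT⟩ := hev
  obtain ⟨q₀, hq₀, hTq⟩ := mem_iUnion₂.1 (hT T le_rfl)
  refine ⟨q₀, hq₀, ?_⟩
  have hpre : IsPreconnected ((fun t => Φ t p) '' Ici T) :=
    isPreconnected_Ici.image _ (cont_t hΦ p).continuousOn
  have hdj : Disjoint (U q₀) (⋃ q ∈ S \ {q₀}, U q) := by
    rw [disjoint_iUnion₂_right]
    intro q hq
    exact hdis hq₀ hq.1 (fun e => hq.2 e.symm)
  have hin : (fun t => Φ t p) '' Ici T ⊆ U q₀ := by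
    refine hpre.subset_left_of_subset_union (hU q₀).2
      (isOpen_biUnion fun q _ => (hU q).2) hdj ?_ ⟨Φ T p, ⟨T, mem_Ici.2 le_rfl, rfl⟩, hTq⟩
    rintro _ ⟨t, ht, rfl⟩
    obtain ⟨q, hq, hq'⟩ := mem_iUnion₂.1 (hT t ht)
    by_cases e : q = q₀
    · left
      rw [← e]
      exact hq'
    · right
      exact mem_biUnion (x := q) ⟨hq, e⟩ hq'
  intro q hq
  by_contra hne
  obtain ⟨t, ht, ht'⟩ := hq (U q) ((hU q).2.mem_nhds (hU q).1) T
  exact (Set.disjoint_left.1 (hdis hq₀ (hsub hq) (fun e => hne e.symm)))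
    (hin ⟨t, ht, rfl⟩) ht'

theorem conv_point (hΦ : FlowOn N Φ) {h : N → ℝ} (hc : Continuous h)
    (hm : ∀ p t, 0 ≤ t → h p ≤ h (Φ t p)) {S : Set N} (hS : S.Finite)
    (hs : ∀ q, q ∉ S → h q < h (Φ 1 q)) (p : N) :
    ∃ q ∈ S, Tendsto (fun t => Φ t p) atTop (𝓝 q) := by
  obtain ⟨q, hq, hq'⟩ := one_point hΦ hc hm hS hs p
  refine ⟨q, hq, tendsto_nhds_of_unique_mapClusterPt fun x hx => ?_⟩
  refine hq' fun W hW T => ?_
  have h1 := (mapClusterPt_iff_frequently.1 hx) W hW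
  obtain ⟨t, ht, ht'⟩ := frequently_atTop.1 h1 T
  exact ⟨t, ht, ht'⟩

theorem finite_attr (hΦ : FlowOn N Φ) {h : N → ℝ} (hc : Continuous h)
    (hm : ∀ p t, 0 ≤ t → h p ≤ h (Φ t p)) {S : Set N} (hS : S.Finite)
    (hst : ∀ q ∈ S, ∀ t, Φ t q = q)
    (hs : ∀ q, q ∉ S → h q < h (Φ 1 q)) [MeasurableSpace N] (μ : Measure N) :
    FiniteAttractorsF μ Φ := by
  classical
  have hA : {q | q ∈ S ∧ 0 < μ {p | omegaF Φ p ⊆ {q}}}.Finite := hS.subset fun q hq => hq.1
  set A := hA.toFinset with hAdef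
  have hmem : ∀ q, q ∈ A ↔ q ∈ S ∧ 0 < μ {p | omegaF Φ p ⊆ {q}} := fun q => by
    rw [hAdef, Finite.mem_toFinset]
    rfl
  refine ⟨A.card, fun i => {(A.equivFin.symm i : N)}, fun i => ?_, ?_⟩
  · obtain ⟨h1, h2⟩ := (hmem _).1 (A.equivFin.symm i).2
    refine ⟨fun t => ?_, ⟨_, rfl, ?_⟩, h2⟩
    · rw [image_singleton, hst _ h1]
    · rw [singleton_subset_iff]
      apply subset_closure
      exact ⟨0, le_rfl, (hΦ.zero _).symm⟩
  · have h1 : {p | ∀ i, ¬ omegaF Φ p ⊆ {(A.equivFin.symm i : N)}} ⊆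
        ⋃ q ∈ {q | q ∈ S ∧ μ {p | omegaF Φ p ⊆ {q}} = 0}, {p | omegaF Φ p ⊆ {q}} := by
      intro p hp
      obtain ⟨q, hq, hq'⟩ := one_point hΦ hc hm hS hs p
      have h2 : q ∉ A := by
        intro hqA
        apply hp (A.equivFin ⟨q, hqA⟩)
        rw [Equiv.symm_apply_apply]
        exact hq'
      rw [hmem] at h2
      have h3 : μ {p | omegaF Φ p ⊆ {q}} = 0 := by
        by_contra h4
        exact h2 ⟨hq, pos_iff_ne_zero.2 h4⟩
      exact mem_biUnion (x := q) ⟨hq, h3⟩ hq'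
    refine measure_mono_null h1 ?_
    rw [measure_biUnion_null_iff (hS.subset fun q hq => hq.1).countable]
    exact fun q hq => hq.2

end Pool.Agent.V5helper21.FR
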