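import Pool.Agent.V5helper21.FR.Mor
import Pool.Agent.V5helper21.FR.Lya
import Pool.Agent.H826R2.Wein.Flw

/-!
# Fields `A(dh)` with positive `A` on closed manifolds
-/

set_option autoImplicit false
set_option linter.unusedSectionVars false

open scoped Manifold ContDiff Topology
open MeasureTheory Filter Set

universe u

namespace Pool.Agent.V5helper21.FR

open Pool.Agent.H718R2.G Pool.Agent.Y318.MN Pool.Agent.V5helper25.PB Pool.Agent.Helper186
open Pool.Agent.H826R2.Wein (Imm complete_of_compact hasDerivAt_along)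

variable {n : ℕ} {N : Type u} [TopologicalSpace N] [T2Space N] [CompactSpace N]
  [ChartedSpace (V n) N] [IsManifold (𝓡 n) ∞ N]

/-- smooth fields on closed manifolds have flows -/
theorem exists_flow {X : N → V n} (hX : SmoothField X) : ∃ Φ, FlowOf X Φ := by
  have : IsManifold (𝓡 n) 1 N := IsManifold.of_le (m := 1) (n := ∞) (by norm_cast)
  have hX' : ContMDiff (𝓡 n) (𝓡 n).tangent ∞
    (fun x => (⟨x, X x⟩ : TangentBundle (𝓡 n) N)) := (smoothField_iff X).1 hX
  choose Fl h0 h1 using fun x : N => complete_of_compact (E := V n) (P := N) (W := X) hX'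
    isCompact_univ (fun y hy => absurd (mem_univ y) hy) x
  have hsm := contMDiff_flow (I := 𝓡 n) (M := N) (V := X) hX' h0 h1
  refine ⟨fun t x => Fl x t, ⟨?_, h0, ?_⟩, h1⟩
  · exact hsm.continuous.comp (continuous_snd.prodMk continuous_fst)
  · intro s t y
    show Fl y (s + t) = Fl (Fl y t) s
    rw [add_comm, flow_add (I := 𝓡 n) (M := N) (V := X) hX' h0 h1]

theorem stat_point {X : N → V n} (hX : SmoothField X) {Φ : ℝ → N → N} (hΦ : FlowOf X Φ) {q : N}
    (hq : X q = 0) (t : ℝ) : Φ t q = q := by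
  have : IsManifold (𝓡 n) 1 N := IsManifold.of_le (m := 1) (n := ∞) (by norm_cast)
  have hX1 : ContMDiff (𝓡 n) (𝓡 n).tangent 1
    (fun x => (⟨x, X x⟩ : TangentBundle (𝓡 n) N)) :=
    ContMDiff.of_le ((smoothField_iff X).1 hX) (by norm_cast)
  have hc : IsMIntegralCurve (I := 𝓡 n) (fun _ : ℝ => q) X := by
    intro t
    have h1 : HasMFDerivAt 𝓘(ℝ, ℝ) (𝓡 n) (fun _ : ℝ => q) t (0 : ℝ →L[ℝ] V n) :=
      hasMFDerivAt_const q t
    refine h1.congr_mfderiv ?_
    refine ContinuousLinearMap.ext fun (r : ℝ) => ?_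
    show (0 : V n) = r • X q
    rw [hq, smul_zero]
  have e := isMIntegralCurve_Ioo_eq_of_contMDiff_boundaryless (t₀ := 0) hX1 (hΦ.2 q) hc
    (by show Φ 0 q = q; rw [hΦ.1.zero])
  exact congrFun e t

theorem along {X : N → V n} {Φ : ℝ → N → N} (hΦ : FlowOf X Φ) {h : N → ℝ} (hh : SmoothFun n h)
    (p : N) (t : ℝ) : HasDerivAt (fun t => h (Φ t p)) (dif n h (Φ t p) (X (Φ t p))) t :=
  hasDerivAt_along (E := V n) (P := N) (W := X) (c := fun t => Φ t p) (hΦ.2 p t) hh

/-- **Fields with a strict Lyapunov function.** -/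
theorem lyap {X : N → V n} (hX : SmoothField X) {Φ : ℝ → N → N} (hΦ : FlowOf X Φ) {h : N → ℝ}
    (hh : SmoothFun n h) (hfin : {x | IsCrit n h x}.Finite)
    (hst : ∀ x, IsCrit n h x → X x = 0) (hpos : ∀ x, ¬ IsCrit n h x → 0 < dif n h x (X x)) :
    Conv Φ ∧ ∀ (_ : MeasurableSpace N) (μ : Measure N), FiniteAttractorsF μ Φ := by
  have hnn : ∀ x, 0 ≤ dif n h x (X x) := by
    intro x
    by_cases hx : IsCrit n h x
    · rw [hst x hx, map_zero]
    · exact (hpos x hx).le
  have hmono : ∀ p, Monotone fun t => h (Φ t p) := fun p =>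
    monotone_of_hasDerivAt_nonneg (fun t => along hΦ hh p t) (fun t => hnn _)
  have hm : ∀ p t, 0 ≤ t → h p ≤ h (Φ t p) := by
    intro p t ht
    have h1 := hmono p ht
    simp only [hΦ.1.zero] at h1
    exact h1
  have hs : ∀ q, q ∉ {x | IsCrit n h x} → h q < h (Φ 1 q) := by
    intro q hq
    refine lt_of_le_of_ne (hm q 1 zero_le_one) fun heq => ?_
    have hcon : ∀ t ∈ Icc (0 : ℝ) 1, h (Φ t q) = h q := fun t ht =>
      le_antisymm ((hmono q ht.2).trans heq.ge) (hm q t ht.1)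
    have h1 := (along hΦ hh q 0).hasDerivWithinAt (s := Icc (0 : ℝ) 1)
    have h2 : HasDerivWithinAt (fun t => h (Φ t q)) 0 (Icc (0 : ℝ) 1) 0 :=
      (hasDerivWithinAt_const (0 : ℝ) (Icc (0 : ℝ) 1) (h q)).congr hcon
        (hcon 0 ⟨le_rfl, zero_le_one⟩)
    have h3 := (uniqueDiffOn_Icc (zero_lt_one' ℝ) 0 ⟨le_rfl, zero_le_one⟩).eq_deriv _ h1 h2
    rw [hΦ.1.zero] at h3
    exact (hpos q hq).ne' h3
  have hstat : ∀ q ∈ {x | IsCrit n h x}, ∀ t, Φ t q = q := fun q hq t =>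
    stat_point hX hΦ (hst q hq) t
  have hc : Continuous h := ContMDiff.continuous hh
  exact ⟨⟨_, hfin, hstat, conv_point hΦ.1 hc hm hfin hs⟩,
    fun _ μ => finite_attr hΦ.1 hc hm hfin hstat hs μ⟩

theorem field_fric {A B : BMap n N} (hA : BundleMap A) (hB : BundleMap B)
    {h : N → ℝ} (hh : SmoothFun n h) (ε : ℝ) : SmoothField (fric A B h ε) :=
  sf_add (hA.2 h hh) (sf_smul ε (hB.2 h hh))

end Pool.Agent.V5helper21.FR
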