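import Pool.Agent.V5helper21.FR.Main

/-!
# The fields `A(dH)` are limits
-/

set_option autoImplicit false
set_option linter.unusedSectionVars false

open scoped Manifold ContDiff Topology
open MeasureTheory Filter Set

universe u

namespace Pool.Agent.V5helper21.FR

open Pool.Agent.H718R2.G Pool.Agent.Y318.MN Pool.Agent.V5helper25.PB

/-- The vector space of the smooth fields on `N`. -/
def Fields (n : ℕ) (N : Type u) [TopologicalSpace N] [ChartedSpace (V n) N]
    [IsManifold (𝓡 n) ∞ N] : Submodule ℝ (N → V n) where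
  carrier := {X | SmoothField X}
  add_mem' := sf_add
  zero_mem' := by
    show SmoothField (0 : N → V n)
    exact (smoothField_iff _).2 (Bundle.contMDiff_zeroSection ℝ (TangentSpace (𝓡 n)))
  smul_mem' := fun c _ hX => sf_smul c hX

/-- The vector space of the smooth fields on `N`, as a type. -/
def FieldSp (n : ℕ) (N : Type u) [TopologicalSpace N] [ChartedSpace (V n) N]
    [IsManifold (𝓡 n) ∞ N] : Type u := ↥(Fields n N)

section defs

variable {n : ℕ} {N : Type u} [TopologicalSpace N] [ChartedSpace (V n) N] [IsManifold (𝓡 n) ∞ N]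

noncomputable instance instGrp : AddCommGroup (FieldSp n N) :=
  Submodule.addCommGroup (Fields n N)

noncomputable instance instMod : Module ℝ (FieldSp n N) :=
  Submodule.module (Fields n N)

/-- The field as a map. -/
def FieldSp.map (X : FieldSp n N) : N → V n := X.1

/-- `t` is a vector space topology on the space of the smooth fields on `N`. -/
def VecTop (n : ℕ) (N : Type u) [TopologicalSpace N] [ChartedSpace (V n) N]
    [IsManifold (𝓡 n) ∞ N] (t : TopologicalSpace (FieldSp n N)) : Prop :=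
  @IsTopologicalAddGroup (FieldSp n N) t _ ∧ @ContinuousSMul ℝ (FieldSp n N) _ _ t

/-- The field `X` belongs to the closure of the set of the smooth fields with the property `D`, for
every vector space topology on the space of the smooth fields (so for the `C^r` topology, all `r`). -/
def LimitOf (D : (N → V n) → Prop) (X : N → V n) : Prop :=
  ∃ X' : FieldSp n N, X'.map = X ∧ ∀ t : TopologicalSpace (FieldSp n N), VecTop n N t →
    X' ∈ @closure (FieldSp n N) t {Y | D Y.map}

end defs

variable {n : ℕ} {N : Type u} [TopologicalSpace N] [T2Space N] [CompactSpace N]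
  [ChartedSpace (V n) N] [IsManifold (𝓡 n) ∞ N] {A B : BMap n N}

theorem limit_main {ι : Type} [Fintype ι] {H : N → ℝ} {e : ι → N → ℝ} (hH : SmoothFun n H)
    (he : ∀ j, SmoothFun n (e j)) (hA : BundleMap A) (hB : BundleMap B)
    (D : (N → V n) → Prop) (hD : ∀ᵐ c : ι → ℝ, ∀ ε : ℝ, 0 < ε → D (fric A B (Hc H e c) ε)) :
    LimitOf D (fld A H) := by
  refine ⟨⟨_, hA.2 H hH⟩, rfl, fun t ht => ?_⟩
  obtain ⟨ht1, ht2⟩ := ht
  letI : TopologicalSpace (Fields n N) := t
  haveI : IsTopologicalAddGroup (Fields n N) := ht1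
  haveI : ContinuousSMul ℝ (Fields n N) := ht2
  set X₀ : Fields n N := ⟨_, hA.2 H hH⟩
  set a : ι → Fields n N := fun j => ⟨_, hA.2 (e j) (he j)⟩
  set b₀ : Fields n N := ⟨_, hB.2 H hH⟩
  set b : ι → Fields n N := fun j => ⟨_, hB.2 (e j) (he j)⟩
  have hF : ∀ c ε, ((X₀ + ∑ j, c j • a j + ε • (b₀ + ∑ j, c j • b j) : Fields n N) : N → V n) =
      fric A B (Hc H e c) ε := by
    intro c ε
    rw [expand hH he hA hB c ε]
    simp [X₀, a, b₀, b]
  have hc1 : ∀ ε : ℝ, Continuous fun c : ι → ℝ =>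
      X₀ + ∑ j, c j • a j + ε • (b₀ + ∑ j, c j • b j) := fun ε => by fun_prop
  have hc2 : Continuous fun ε : ℝ => X₀ + ∑ j, (0 : ι → ℝ) j • a j +
      ε • (b₀ + ∑ j, (0 : ι → ℝ) j • b j) := by fun_prop
  have h0 : X₀ + ∑ j, (0 : ι → ℝ) j • a j + (0 : ℝ) • (b₀ + ∑ j, (0 : ι → ℝ) j • b j) = X₀ := by
    simp
  have key : X₀ ∈ closure {Y : Fields n N | D Y.1} := by
    rw [mem_closure_iff]
    intro U hU hXU
    have hO : IsOpen ((fun ε : ℝ => X₀ + ∑ j, (0 : ι → ℝ) j • a j +
        ε • (b₀ + ∑ j, (0 : ι → ℝ) j • b j)) ⁻¹' U) := hU.preimage hc2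
    obtain ⟨δ, hδ, hδU⟩ := Metric.isOpen_iff.1 hO 0 (by
      have h9 := hXU
      rw [← h0] at h9
      exact h9)
    have hδ2 : δ / 2 ∈ Metric.ball (0 : ℝ) δ := by
      rw [Metric.mem_ball, Real.dist_eq, sub_zero, abs_of_pos (half_pos hδ)]
      exact half_lt_self hδ
    have hW := hU.preimage (hc1 (δ / 2))
    obtain ⟨c, hcW, hcD⟩ := (Measure.dense_of_ae hD).inter_open_nonempty _ hW
      ⟨0, hδU hδ2⟩
    refine ⟨_, hcW, ?_⟩
    show D _
    rw [hF]
    exact hcD _ (half_pos hδ)
  exact key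

theorem main2 (n : ℕ) (N : Type u) [TopologicalSpace N] [T2Space N] [CompactSpace N]
    [ChartedSpace (V n) N] [IsManifold (𝓡 n) ∞ N] (A : BMap n N) (hA : BundleMap A)
    (hpA : Nonneg A) (H : N → ℝ) (hH : SmoothFun n H) : LimitOf FinAttr (fld A H) := by
  obtain ⟨⟨B, hB, hpB⟩, ι, hι, e, he, h⟩ := main n N
  refine limit_main hH he hA hB FinAttr ?_
  filter_upwards [h H hH] with c hc ε hε
  exact (hc A B hA hB hpA hpB ε hε).2

end Pool.Agent.V5helper21.FR
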