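import Pool.Agent.V5helper21.FR.Stm
import Pool.Agent.H826R2.Wein.Flw

/-!
# A positive bundle map `T*N → TN` (a dual Riemannian metric)
-/

set_option autoImplicit false
set_option linter.unusedSectionVars false

open scoped Manifold ContDiff Topology
open Filter Set

universe u

namespace Pool.Agent.V5helper21.FR

open Pool.Agent.H718R2.G Pool.Agent.Helper186
open Pool.Agent.H826R2.Wein (Imm)

variable {n : ℕ} {N : Type u} [TopologicalSpace N] [T2Space N] [CompactSpace N]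
  [ChartedSpace (V n) N] [IsManifold (𝓡 n) ∞ N]

/-- the coordinates of the immersion -/
noncomputable def co {k : ℕ} (ι : Imm (E := V n) N k) (j : Fin k) (x : N) : ℝ := ι.F x j

theorem co_smooth {k : ℕ} (ι : Imm (E := V n) N k) (j : Fin k) :
    ContMDiff (𝓡 n) 𝓘(ℝ, ℝ) ∞ (co ι j) :=
  (EuclideanSpace.proj (𝕜 := ℝ) j).contMDiff.comp ι.smooth

theorem co_der {k : ℕ} (ι : Imm (E := V n) N k) (j : Fin k) (x : N)
    (u : TangentSpace 𝓘(ℝ, V n) x) : dForm (𝓡 n) (co ι j) x u = ι.D x u j := by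
  have h1 := (ι.smooth.mdifferentiableAt (x := x) (by simp)).hasMFDerivAt
  have h2 : HasMFDerivAt 𝓘(ℝ, EuclideanSpace ℝ (Fin k)) 𝓘(ℝ, ℝ)
      (fun w : EuclideanSpace ℝ (Fin k) => w j) (ι.F x) (EuclideanSpace.proj (𝕜 := ℝ) j) :=
    (EuclideanSpace.proj (𝕜 := ℝ) j).hasMFDerivAt
  have h3 := HasMFDerivAt.comp x h2 h1
  have h4 : dForm (𝓡 n) (co ι j) x = _ := h3.mfderiv
  rw [h4]
  rfl

/-- the gradients of the coordinates -/
noncomputable def Wg {k : ℕ} (ι : Imm (E := V n) N k) (j : Fin k) (x : N) : V n :=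
  ι.grad (co ι j) x

/-- the dual metric `Σ W_j ⊗ W_j` -/
noncomputable def bm {k : ℕ} (ι : Imm (E := V n) N k) : BMap n N := fun x ξ =>
  ∑ j, ξ (Wg ι j x) • Wg ι j x

theorem bm_apply {k : ℕ} (ι : Imm (E := V n) N k) (x : N) (ξ : V n →L[ℝ] ℝ) :
    bm ι x ξ = ∑ j, ξ (Wg ι j x) • Wg ι j x := rfl

theorem bm_bundle {k : ℕ} (ι : Imm (E := V n) N k) : BundleMap (bm ι) := by
  refine ⟨fun x => ⟨fun ξ η => ?_, fun c ξ => ?_⟩, ?_⟩
  · rw [bm_apply, bm_apply, bm_apply, ← Finset.sum_add_distrib]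
    refine Finset.sum_congr rfl fun j _ => ?_
    rw [ContinuousLinearMap.add_apply, add_smul]
  · rw [bm_apply, bm_apply, Finset.smul_sum]
    refine Finset.sum_congr rfl fun j _ => ?_
    rw [ContinuousLinearMap.smul_apply, smul_eq_mul, mul_smul]
  intro h hh
  have h1 : ∀ j, ContMDiff (𝓡 n) (𝓡 n).tangent ∞ (fun x =>
      (⟨x, ι.G2 h (co ι j) x • ι.grad (co ι j) x⟩ : TangentBundle (𝓡 n) N)) := fun j =>
    ContMDiff.smul_section (ι.smooth_G2 hh (co_smooth ι j)) (ι.smooth_grad (co_smooth ι j))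
  have h2 := ContMDiff.sum_section (s := Finset.univ) (fun j _ => h1 j)
  have e : (fun x => (⟨x, fld (bm ι) h x⟩ : TangentBundle (𝓡 n) N)) =
      fun x => ⟨x, ∑ j, ι.G2 h (co ι j) x • ι.grad (co ι j) x⟩ := by
    funext x
    exact congrArg (fun w : V n => (⟨x, w⟩ : TangentBundle (𝓡 n) N)) (bm_apply ι x _)
  rw [smoothField_iff, e]
  exact h2

theorem bm_pos {k : ℕ} (ι : Imm (E := V n) N k) : Posit (bm ι) := by
  intro x ξ hξ
  rw [bm_apply, map_sum]
  have e : ∀ j, ξ (ξ (Wg ι j x) • Wg ι j x) = ξ (Wg ι j x) ^ 2 := fun j => by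
    rw [map_smul, smul_eq_mul, sq]
  rw [Finset.sum_congr rfl fun j _ => e j]
  refine lt_of_le_of_ne (Finset.sum_nonneg fun j _ => sq_nonneg _) fun h0 => hξ ?_
  have h1 := (Finset.sum_eq_zero_iff_of_nonneg (fun j _ => sq_nonneg (ξ (Wg ι j x)))).1 h0.symm
  obtain ⟨u, hu⟩ := ι.exists_sh x ξ
  have h2 : ι.D x u = 0 := by
    ext j
    have h3 := pow_eq_zero_iff (two_ne_zero) |>.1 (h1 j (Finset.mem_univ j))
    have h4 : ι.B x (ι.grad (co ι j) x) u = dForm (𝓡 n) (co ι j) x u := ι.grad_spec _ _ _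
    have h5 : ι.B x u (ι.grad (co ι j) x) = ξ (Wg ι j x) := hu _
    rw [ι.B_apply] at h4 h5
    rw [real_inner_comm, h4] at h5
    have h6 := co_der ι j x u
    show ι.D x u j = 0
    rw [← h6]
    exact h5.trans h3
  refine ContinuousLinearMap.ext fun v => ?_
  have h7 : ι.B x u v = ξ v := hu v
  have h8 : ι.B x u v = 0 := by rw [ι.B_apply, h2, inner_zero_left]
  exact h7.symm.trans h8

theorem exists_pos (n : ℕ) (N : Type u) [TopologicalSpace N] [T2Space N] [CompactSpace N]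
    [ChartedSpace (V n) N] [IsManifold (𝓡 n) ∞ N] :
    ∃ B : BMap n N, BundleMap B ∧ Posit B := by
  obtain ⟨k, e, he, -, hinj⟩ := exists_embedding_euclidean_of_compact (I := 𝓡 n) (M := N)
  let ι : Imm (E := V n) N k := ⟨e, he, hinj⟩
  exact ⟨bm ι, bm_bundle ι, bm_pos ι⟩

end Pool.Agent.V5helper21.FR
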