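import Pool.Agent.V5helper21.FR.Flo
import Pool.Agent.V5helper21.FR.Met

/-!
# The main theorem
-/

set_option autoImplicit false
set_option linter.unusedSectionVars false

open scoped Manifold ContDiff Topology
open MeasureTheory Filter Set

universe u

namespace Pool.Agent.V5helper21.FR

open Pool.Agent.H718R2.G Pool.Agent.Y318.MN Pool.Agent.V5helper25.PB

variable {n : ℕ} {N : Type u} [TopologicalSpace N] [T2Space N] [CompactSpace N]
  [ChartedSpace (V n) N] [IsManifold (𝓡 n) ∞ N] {A B : BMap n N}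

theorem fric_main (hA : BundleMap A) (hB : BundleMap B) (hpA : Nonneg A) (hpB : Posit B)
    {h : N → ℝ} (hh : SmoothFun n h)
    (hfin : {x | IsCrit n h x}.Finite) {ε : ℝ} (hε : 0 < ε) :
    SmoothField (fric A B h ε) ∧ FinAttr (fric A B h ε) := by
  have hF := field_fric hA hB hh ε
  refine ⟨hF, exists_flow hF, fun Φ hΦ => lyap hF hΦ hh hfin (fun x hx => ?_) (fun x hx => ?_)⟩
  · have h0 : dif n h x = 0 := hx
    show A x (dif n h x) + ε • B x (dif n h x) = 0
    rw [h0, (hA.1 x).map_zero, (hB.1 x).map_zero, smul_zero, add_zero]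
  · have h0 : dif n h x ≠ 0 := hx
    show 0 < dif n h x (A x (dif n h x) + ε • B x (dif n h x))
    rw [map_add, map_smul, smul_eq_mul]
    have h1 := hpA x (dif n h x)
    have h2 := mul_pos hε (hpB x _ h0)
    linarith

theorem dif_Hc {ι : Type} [Fintype ι] {H : N → ℝ} {e : ι → N → ℝ} (hH : SmoothFun n H)
    (he : ∀ j, SmoothFun n (e j)) (c : ι → ℝ) (x : N) :
    dif n (Hc H e c) x = dif n H x + ∑ j, c j • dif n (e j) x := by
  have d : ∀ h : N → ℝ, SmoothFun n h → HasMFDerivAt (𝓡 n) 𝓘(ℝ, ℝ) h x (dif n h x) := fun h hh =>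
    (ContMDiff.mdifferentiableAt hh (by simp)).hasMFDerivAt
  have h1 := (d H hH).add (HasMFDerivAt.sum (t := Finset.univ)
    (fun j _ => (d (e j) (he j)).const_smul (c j)))
  have e1 : Hc H e c = H + ∑ j, c j • e j := by
    funext y
    simp [Hc]
  rw [← e1] at h1
  exact h1.mfderiv

theorem expand {ι : Type} [Fintype ι] {H : N → ℝ} {e : ι → N → ℝ} (hH : SmoothFun n H)
    (he : ∀ j, SmoothFun n (e j)) (hA : BundleMap A) (hB : BundleMap B) (c : ι → ℝ) (ε : ℝ) :
    fric A B (Hc H e c) ε = fld A H + ∑ j, c j • fld A (e j)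
      + ε • (fld B H + ∑ j, c j • fld B (e j)) := by
  funext x
  have h1 := dif_Hc hH he c x
  have key : ∀ C : BMap n N, BundleMap C →
      C x (dif n (Hc H e c) x) = fld C H x + ∑ j, c j • fld C (e j) x := by
    intro C hC
    rw [h1]
    have h2 := map_add ((hC.1 x).mk' _) (dif n H x) (∑ j, c j • dif n (e j) x)
    rw [map_sum, Finset.sum_congr rfl fun j _ => map_smul ((hC.1 x).mk' _) (c j) _] at h2
    exact h2
  show A x (dif n (Hc H e c) x) + ε • B x (dif n (Hc H e c) x) = _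
  rw [key A hA, key B hB]
  simp

theorem main (n : ℕ) (N : Type u) [TopologicalSpace N] [T2Space N] [CompactSpace N]
    [ChartedSpace (V n) N] [IsManifold (𝓡 n) ∞ N] :
    (∃ B : BMap n N, BundleMap B ∧ Posit B) ∧
    ∃ (ι : Type) (_ : Fintype ι) (e : ι → N → ℝ), (∀ j, SmoothFun n (e j)) ∧
      ∀ H : N → ℝ, SmoothFun n H → ∀ᵐ c : ι → ℝ, ∀ A B : BMap n N,
        BundleMap A → BundleMap B → Nonneg A → Posit B → ∀ ε : ℝ, 0 < ε →
          SmoothField (fric A B (Hc H e c) ε) ∧ FinAttr (fric A B (Hc H e c) ε) := by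
  obtain ⟨ι, hι, e, he, hfin⟩ := exists_family n N
  refine ⟨exists_pos n N, ι, hι, e, he, fun H hH => ?_⟩
  filter_upwards [hfin H hH] with c hc A B hA hB hpA hpB ε hε
  exact fric_main hA hB hpA hpB (Hc_smooth hH he c) hc hε

end Pool.Agent.V5helper21.FR
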