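import Pool.Agent.V5helper25.PB.FDef
import Pool.Agent.H718R2.G0

/-!
# MP_3a2b62, Q2: fields `A(dH)` on closed manifolds (definitions)

`V n = ℝⁿ`. In Mathlib the tangent space of the manifold `N` (with charts in `V n`) at `x` is `V n`
(coordinates in the preferred chart `chartAt (V n) x`), so a vector field on `N` is a map
`X : N → V n`, and the cotangent space at `x` is `V n →L[ℝ] ℝ`.
-/

set_option autoImplicit false

open scoped Manifold ContDiff Topology
open MeasureTheory Filter Set

universe u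

namespace Pool.Agent.V5helper21.FR

open Pool.Agent.H718R2.G Pool.Agent.V5helper25.PB

/-- Maps `A x` from the cotangent space to the tangent space of `N` at `x`, for all `x ∈ N`. -/
abbrev BMap (n : ℕ) (N : Type u) : Type u := N → (V n →L[ℝ] ℝ) → V n

/-- `h` is a smooth function on `N`. -/
def SmoothFun (n : ℕ) {N : Type u} [TopologicalSpace N] [ChartedSpace (V n) N] (h : N → ℝ) : Prop :=
  ContMDiff (𝓡 n) 𝓘(ℝ, ℝ) ∞ h

section defs

variable {n : ℕ} {N : Type u} [TopologicalSpace N] [ChartedSpace (V n) N]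

/-- The coordinates of the tangent vector `X y` in the preferred chart of `y₀`. -/
noncomputable def coordF (X : N → V n) (y₀ y : N) : V n :=
  fderiv ℝ (fun z => chartAt (V n) y₀ ((chartAt (V n) y).symm z)) (chartAt (V n) y y) (X y)

/-- `X` is a smooth vector field on `N`: its coordinates in the charts are smooth. -/
def SmoothField (X : N → V n) : Prop :=
  ∀ y₀ : N, ContMDiffAt (𝓡 n) 𝓘(ℝ, V n) ∞ (coordF X y₀) y₀

/-- `Φ` is the flow of the field `X`: a continuous flow, the curves `t ↦ Φ t y` are integral curves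
of `X`. -/
def FlowOf (X : N → V n) (Φ : ℝ → N → N) : Prop :=
  FlowOn N Φ ∧ ∀ y, IsMIntegralCurve (I := 𝓡 n) (fun t => Φ t y) X

end defs

/-- The differential of `h` at `x`. -/
noncomputable def dif (n : ℕ) {N : Type u} [TopologicalSpace N] [ChartedSpace (V n) N] (h : N → ℝ)
    (x : N) : V n →L[ℝ] ℝ :=
  mfderiv (𝓡 n) 𝓘(ℝ, ℝ) h x

section defs

variable {n : ℕ} {N : Type u}

/-- `ξ (A ξ) ≥ 0` for all covectors `ξ`. -/
def Nonneg (A : BMap n N) : Prop := ∀ (x : N) (ξ : V n →L[ℝ] ℝ), 0 ≤ ξ (A x ξ)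

/-- `ξ (B ξ) > 0` for all covectors `ξ ≠ 0`. -/
def Posit (B : BMap n N) : Prop := ∀ (x : N) (ξ : V n →L[ℝ] ℝ), ξ ≠ 0 → 0 < ξ (B x ξ)

/-- The function `H + Σ c_j e_j`. -/
noncomputable def Hc {ι : Type} [Fintype ι] (H : N → ℝ) (e : ι → N → ℝ) (c : ι → ℝ)
    (x : N) : ℝ := H x + ∑ j, c j * e j x

variable [TopologicalSpace N] [ChartedSpace (V n) N]

/-- The vector field `A(dh)`. -/
noncomputable def fld (A : BMap n N) (h : N → ℝ) (x : N) : V n := A x (dif n h x)

/-- `A` is a smooth bundle map `T*N → TN`: the maps `A x` are linear, and the field `A(dh)` is smooth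
for every smooth function `h`. -/
def BundleMap (A : BMap n N) : Prop :=
  (∀ x, IsLinearMap ℝ (A x)) ∧ ∀ h : N → ℝ, SmoothFun n h → SmoothField (fld A h)

/-- The vector field `A(dh) + ε B(dh)`. -/
noncomputable def fric (A B : BMap n N) (h : N → ℝ) (ε : ℝ) (x : N) : V n :=
  fld A h x + ε • fld B h x

/-- The flow `Φ` has finitely many stationary points, and every orbit converges to one of them. -/
def Conv {N : Type u} [TopologicalSpace N] (Φ : ℝ → N → N) : Prop :=
  ∃ S : Set N, S.Finite ∧ (∀ q ∈ S, ∀ t, Φ t q = q) ∧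
    ∀ p, ∃ q ∈ S, Tendsto (fun t => Φ t p) atTop (𝓝 q)

/-- The field `X` has a flow, and its flow has finitely many stationary points to which all orbits
converge, and finitely many attractors covering `N`, for every measure on `N`. -/
def FinAttr (X : N → V n) : Prop :=
  (∃ Φ, FlowOf X Φ) ∧ ∀ Φ, FlowOf X Φ → Conv Φ ∧
    ∀ (_ : MeasurableSpace N) (μ : Measure N), FiniteAttractorsF μ Φ

theorem smoothField_iff [IsManifold (𝓡 n) ∞ N] (X : N → V n) :
    SmoothField X ↔ ContMDiff (𝓡 n) (𝓡 n).tangent ∞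
      (fun x => (⟨x, X x⟩ : TangentBundle (𝓡 n) N)) := by
  have h : ∀ y₀ : N, ContMDiffAt (𝓡 n) (𝓡 n).tangent ∞
      (fun y => (⟨y, X y⟩ : TangentBundle (𝓡 n) N)) y₀ ↔
      ContMDiffAt (𝓡 n) 𝓘(ℝ, V n) ∞ (coordF X y₀) y₀ := by
    intro y₀
    have e : (fun y => (trivializationAt (V n) (TangentSpace (𝓡 n) : N → Type) y₀
        ⟨y, X y⟩).2) = coordF X y₀ := by
      funext y
      rw [TangentBundle.trivializationAt_apply]
      simp only [coordF, OpenPartialHomeomorph.extend, mfld_simps, fderivWithin_univ]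
      rfl
    rw [← e]
    exact Bundle.contMDiffAt_section (E := (TangentSpace (𝓡 n) : N → Type))
      (s := fun y => (show TangentSpace (𝓡 n) y from X y)) y₀
  exact (forall_congr' h).symm

theorem sf_add [IsManifold (𝓡 n) ∞ N] {X Y : N → V n} (hX : SmoothField X) (hY : SmoothField Y) :
    SmoothField (X + Y) :=
  (smoothField_iff _).2 (ContMDiff.add_section ((smoothField_iff _).1 hX) ((smoothField_iff _).1 hY))

theorem sf_smul [IsManifold (𝓡 n) ∞ N] (c : ℝ) {X : N → V n} (hX : SmoothField X) :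
    SmoothField (c • X) :=
  (smoothField_iff _).2 (ContMDiff.smul_section (contMDiff_const (c := c)) ((smoothField_iff _).1 hX))

end defs

end Pool.Agent.V5helper21.FR
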