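import Pool.Agent.V5helper21.FR.Clo
import Pool.Agent.V5helper21.FR.Stm

/-!
# Almost every member of a linear family has finitely many critical points
-/

set_option autoImplicit false
set_option linter.unusedSectionVars false

open scoped Manifold ContDiff Topology
open MeasureTheory Filter Set Metric

universe u

namespace Pool.Agent.V5helper21.FR

open Pool.Agent.H718R2.G Pool.Agent.Y318.MN

section eu

variable {n : ℕ} {F G : V n → ℝ} {v t : V n}

theorem dual_der (hF : ContDiffAt ℝ 2 F v)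
    (hG : G =ᶠ[𝓝 v] fun w => F w + (InnerProductSpace.toDual ℝ (V n) t) w) :
    gd G v = gd F v + t ∧ hs G v = hs F v := by
  have hev : ∀ᶠ w in 𝓝 v, ContDiffAt ℝ 2 F w := hF.eventually (by norm_num)
  have e1 : fderiv ℝ G =ᶠ[𝓝 v] fun w => fderiv ℝ F w + InnerProductSpace.toDual ℝ (V n) t := by
    filter_upwards [hG.eventuallyEq_nhds, hev] with w hw hw2
    rw [hw.fderiv_eq]
    exact ((hw2.differentiableAt (by norm_num)).hasFDerivAt.add
      (InnerProductSpace.toDual ℝ (V n) t).hasFDerivAt).fderiv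
  constructor
  · unfold gd
    rw [e1.self_of_nhds, map_add]
    congr 1
    exact (InnerProductSpace.toDual ℝ (V n)).symm_apply_apply t
  · unfold hs
    rw [e1.fderiv_eq, fderiv_add_const]

end eu

variable {n : ℕ} {N : Type u} [TopologicalSpace N] [T2Space N] [CompactSpace N]
  [ChartedSpace (V n) N] [IsManifold (𝓡 n) ∞ N]

theorem Hc_smooth {ι : Type} [Fintype ι] {H : N → ℝ} {e : ι → N → ℝ}
    (hH : ContMDiff (𝓡 n) 𝓘(ℝ, ℝ) ∞ H) (he : ∀ j, ContMDiff (𝓡 n) 𝓘(ℝ, ℝ) ∞ (e j)) (c : ι → ℝ) :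
    ContMDiff (𝓡 n) 𝓘(ℝ, ℝ) ∞ (Hc H e c) := by
  refine hH.add ?_
  exact contMDiff_finsetSum fun j _ => contMDiff_const.mul (he j)

theorem iso_crit {h : N → ℝ} (hh : ContMDiff (𝓡 n) 𝓘(ℝ, ℝ) ∞ h)
    {χ : OpenPartialHomeomorph N (V n)} (hχ : χ ∈ IsManifold.maximalAtlas (𝓡 n) ∞ N) {y : N}
    (hy : y ∈ χ.source) (hd : (hs (fun w => h (χ.symm w)) (χ y)).det ≠ 0) :
    ∀ᶠ y' in 𝓝 y, IsCrit n h y' → y' = y := by
  set f : V n → ℝ := fun w => h (χ.symm w) with hf
  have hv := χ.map_source hy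
  have hcd : ContDiffAt ℝ 2 f (χ y) := (chart_cd hh hχ hv).of_le (by norm_cast)
  obtain ⟨K, hK, hK2⟩ := (hs f (χ y) : V n →ₗ[ℝ] V n).exists_antilipschitzWith (by
    rw [LinearMap.ker_eq_bot']
    exact fun w hw => det_inj hd hw)
  have h1 : ∀ᶠ v in 𝓝[≠] (χ y), gd f v ≠ 0 := (gd_der hcd).eventually_ne ⟨K, hK2⟩
  rw [eventually_nhdsWithin_iff] at h1
  filter_upwards [(χ.continuousAt hy).eventually h1, χ.open_source.mem_nhds hy] with y' h2 h3 h4
  by_contra hne
  exact h2 (fun e => hne (χ.injOn h3 hy e)) (gd_zero.2 ((crit_iff hh hχ h3).1 h4))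

theorem loc_fam (z : N) : ∃ (O K : Set N) (e : Fin n → N → ℝ), IsOpen O ∧
    O ⊆ (chartAt (V n) z).source ∧ IsCompact K ∧ K ∈ 𝓝 z ∧ K ⊆ O ∧
    (∀ i, ContMDiff (𝓡 n) 𝓘(ℝ, ℝ) ∞ (e i)) ∧ ∀ x ∈ O, ∀ i, e i x = (chartAt (V n) z x) i := by
  obtain ⟨f⟩ : Nonempty (SmoothBumpFunction (𝓡 n) z) := inferInstance
  obtain ⟨O', hO'f, hO', hzO'⟩ := eventually_nhds_iff.1 f.eventuallyEq_one
  have hO : IsOpen (O' ∩ (chartAt (V n) z).source) := hO'.inter (chartAt (V n) z).open_source
  obtain ⟨K, hK, hzK, hKO⟩ := exists_compact_subset hO ⟨hzO', mem_chart_source (V n) z⟩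
  refine ⟨_, K, fun i x => f x • (chartAt (V n) z x) i, hO, inter_subset_right, hK,
    mem_interior_iff_mem_nhds.1 hzK, hKO, fun i => ?_, ?_⟩
  · apply f.contMDiff_smul
    exact (EuclideanSpace.proj (𝕜 := ℝ) i).contMDiff.comp_contMDiffOn contMDiffOn_chart
  · intro x hx i
    have h1 : f x = 1 := hO'f x hx.1
    show f x • (chartAt (V n) z x) i = _
    rw [h1, one_smul]


/-- the direction of the block `l` in the parameter space -/
def dir (n m : ℕ) (l : Fin m) : V n →ₗ[ℝ] (Fin m × Fin n → ℝ) where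
  toFun t j := if j.1 = l then t j.2 else 0
  map_add' s t := by
    ext j
    by_cases hj : j.1 = l <;> simp [hj]
  map_smul' a t := by
    ext j
    by_cases hj : j.1 = l <;> simp [hj]

theorem dir_sum {n m : ℕ} {l : Fin m} {H : N → ℝ} {e : Fin m × Fin n → N → ℝ}
    {c : Fin m × Fin n → ℝ} {t : V n} {x : N} {w : V n} (hx : ∀ i, e (l, i) x = w i) :
    Hc H e (c + dir n m l t) x = Hc H e c x + (InnerProductSpace.toDual ℝ (V n) t) w := by
  unfold Hc
  rw [InnerProductSpace.toDual_apply_apply, add_assoc]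
  congr 1
  have h1 : ∀ j, (c + dir n m l t) j * e j x = c j * e j x + dir n m l t j * e j x := fun j => by
    rw [Pi.add_apply, add_mul]
  rw [Finset.sum_congr rfl fun j _ => h1 j, Finset.sum_add_distrib]
  congr 1
  rw [Fintype.sum_prod_type, Finset.sum_eq_single l]
  · rw [PiLp.inner_apply]
    refine Finset.sum_congr rfl fun i _ => ?_
    rw [hx]
    show (if l = l then t i else 0) * w i = _
    rw [if_pos rfl]
    simp [mul_comm]
  · intro l' _ hl'
    refine Finset.sum_eq_zero fun i _ => ?_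
    show (if l' = l then t i else 0) * e (l', i) x = 0
    rw [if_neg hl', zero_mul]
  · intro h
    exact absurd (Finset.mem_univ _) h

theorem exists_family (n : ℕ) (N : Type u) [TopologicalSpace N] [T2Space N] [CompactSpace N]
    [ChartedSpace (V n) N] [IsManifold (𝓡 n) ∞ N] :
    ∃ (ι : Type) (_ : Fintype ι) (e : ι → N → ℝ),
      (∀ j, ContMDiff (𝓡 n) 𝓘(ℝ, ℝ) ∞ (e j)) ∧
      ∀ H : N → ℝ, ContMDiff (𝓡 n) 𝓘(ℝ, ℝ) ∞ H →
        ∀ᵐ c : ι → ℝ, {x | IsCrit n (Hc H e c) x}.Finite := by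
  choose O K e hO hOs hK hKz hKO he heq using fun z : N => loc_fam (n := n) z
  obtain ⟨t, -, ht⟩ := isCompact_univ.elim_nhds_subcover K (fun z _ => hKz z)
  set m := t.card
  set zz : Fin m → N := fun l => (t.equivFin.symm l : N) with hzz
  set E : Fin m × Fin n → N → ℝ := fun j => e (zz j.1) j.2 with hE
  refine ⟨Fin m × Fin n, inferInstance, E, fun j => he _ _, fun H hH => ?_⟩
  have hEs : ∀ j, ContMDiff (𝓡 n) 𝓘(ℝ, ℝ) ∞ (E j) := fun j => he _ _
  have cd : ∀ (l : Fin m) (h : N → ℝ), ContMDiff (𝓡 n) 𝓘(ℝ, ℝ) ∞ h →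
      ∀ v ∈ (chartAt (V n) (zz l)).target,
        ContDiffAt ℝ 2 (fun w => h ((chartAt (V n) (zz l)).symm w)) v := fun l h hh v hv =>
    (chart_cd hh (IsManifold.chart_mem_maximalAtlas (zz l)) hv).of_le (by norm_cast)
  have key : ∀ l : Fin m, ∀ᵐ c : Fin m × Fin n → ℝ,
      ∀ x ∈ K (zz l), gd (fun w => Hc H E c ((chartAt (V n) (zz l)).symm w))
        (chartAt (V n) (zz l) x) = 0 →
        (hs (fun w => Hc H E c ((chartAt (V n) (zz l)).symm w))
          (chartAt (V n) (zz l) x)).det ≠ 0 := by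
    intro l
    set χ := chartAt (V n) (zz l) with hχdef
    have hKs : K (zz l) ⊆ χ.source := (hKO _).trans (hOs _)
    set κ := χ '' K (zz l) with hκ
    have hκc : IsCompact κ := (hK _).image_of_continuousOn (χ.continuousOn.mono hKs)
    have hκT : κ ⊆ χ.target := by
      rintro _ ⟨x, hx, rfl⟩
      exact χ.map_source (hKs hx)
    have hcl := bad_closed (f₀ := fun w => H (χ.symm w)) (f := fun j w => E j (χ.symm w))
      χ.open_target (cd l H hH) (fun j => cd l (E j) (hEs j)) hκc hκT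
    have hms : MeasurableSet {c : Fin m × Fin n → ℝ | ¬ ∃ v ∈ κ,
        gd (fun w => Hc H E c (χ.symm w)) v = 0 ∧
          (hs (fun w => Hc H E c (χ.symm w)) v).det = 0} := hcl.isOpen_compl.measurableSet
    have h1 := ae_mem_of_ae_add_linearMap_mem (dir n m l) (volume : Measure (V n))
      (volume : Measure (Fin m × Fin n → ℝ)) hms (fun c => by
        have h2 := sard (f := fun w => Hc H E c (χ.symm w)) (O := χ.target)
          (cd l _ (Hc_smooth hH hEs c))
        filter_upwards [h2] with t ht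
        rintro ⟨v, ⟨x, hx, rfl⟩, h3, h4⟩
        have hxs := hKs hx
        have hv : χ x ∈ χ.target := χ.map_source hxs
        have hop : IsOpen (χ.target ∩ χ.symm ⁻¹' O (zz l)) :=
          χ.isOpen_inter_preimage_symm (hO _)
        have hev : (fun w => Hc H E (c + dir n m l t) (χ.symm w)) =ᶠ[𝓝 (χ x)]
            fun w => Hc H E c (χ.symm w) + (InnerProductSpace.toDual ℝ (V n) t) w := by
          have hmem : χ x ∈ χ.target ∩ χ.symm ⁻¹' O (zz l) := ⟨hv, by
            show χ.symm (χ x) ∈ O (zz l)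
            rw [χ.left_inv hxs]
            exact hKO _ hx⟩
          filter_upwards [hop.mem_nhds hmem] with w hw
          refine dir_sum fun i => ?_
          show e (zz l) i (χ.symm w) = w i
          rw [heq _ _ hw.2 i]
          show (χ (χ.symm w)) i = w i
          rw [χ.right_inv hw.1]
        obtain ⟨a1, a2⟩ := dual_der (cd l _ (Hc_smooth hH hEs c) _ hv) hev
        rw [a1] at h3
        rw [a2] at h4
        exact ht _ hv h3 h4)
    filter_upwards [h1] with c hc x hx h0 hd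
    exact hc ⟨χ x, ⟨x, hx, rfl⟩, h0, hd⟩
  filter_upwards [ae_all_iff.2 key] with c hc
  have hs := Hc_smooth hH hEs c
  by_contra hinf
  obtain ⟨x, hx, hacc⟩ := Set.Infinite.exists_accPt_of_subset_isCompact hinf
    (crit_closed hs).isCompact Subset.rfl
  rw [accPt_iff_frequently_nhdsNE] at hacc
  obtain ⟨z, hz, hxz⟩ := mem_iUnion₂.1 (ht (mem_univ x))
  obtain ⟨l, rfl⟩ : ∃ l : Fin m, zz l = z := ⟨t.equivFin ⟨z, hz⟩, by simp [hzz]⟩
  have hχ := IsManifold.chart_mem_maximalAtlas (I := 𝓡 n) (n := ∞) (zz l)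
  have hxs : x ∈ (chartAt (V n) (zz l)).source := hOs _ (hKO _ hxz)
  have h0 : gd (fun w => Hc H E c ((chartAt (V n) (zz l)).symm w)) (chartAt (V n) (zz l) x) = 0 :=
    gd_zero.2 ((crit_iff hs hχ hxs).1 hx)
  have h1 := iso_crit hs hχ hxs (hc l x hxz h0)
  apply hacc
  filter_upwards [nhdsWithin_le_nhds (s := {x}ᶜ) h1, self_mem_nhdsWithin] with y hy hne hcon
  exact hne (hy hcon)

end Pool.Agent.V5helper21.FR
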