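import Pool.Agent.Y318.MN.Attr

/-!
# Sard's theorem for the gradient: linear perturbations in a chart
-/

set_option autoImplicit false

open scoped Manifold ContDiff Topology
open MeasureTheory Filter Set Metric

universe u

namespace Pool.Agent.V5helper21.FR

open Pool.Agent.H718R2.G Pool.Agent.Y318.MN

/-- the gradient of a function on `ℝⁿ` -/
noncomputable def gd {n : ℕ} (f : V n → ℝ) (v : V n) : V n :=
  (InnerProductSpace.toDual ℝ (V n)).symm (fderiv ℝ f v)

theorem gd_zero {n : ℕ} {f : V n → ℝ} {v : V n} : gd f v = 0 ↔ fderiv ℝ f v = 0 := by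
  unfold gd
  exact (InnerProductSpace.toDual ℝ (V n)).symm.map_eq_zero_iff

/-- the derivative of the gradient, as an endomorphism -/
noncomputable def hs {n : ℕ} (f : V n → ℝ) (v : V n) : V n →L[ℝ] V n :=
  ((InnerProductSpace.toDual ℝ (V n)).symm.toContinuousLinearEquiv.toContinuousLinearMap :
    (V n →L[ℝ] ℝ) →L[ℝ] V n).comp (fderiv ℝ (fderiv ℝ f) v)

theorem gd_der {n : ℕ} {f : V n → ℝ} {v : V n} (hf : ContDiffAt ℝ 2 f v) :
    HasFDerivAt (gd f) (hs f v) v := by
  have h1 : DifferentiableAt ℝ (fderiv ℝ f) v :=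
    (hf.fderiv_right (m := 1) (by norm_num)).differentiableAt (by norm_num)
  exact ((InnerProductSpace.toDual ℝ (V n)).symm.toContinuousLinearEquiv.toContinuousLinearMap :
    (V n →L[ℝ] ℝ) →L[ℝ] V n).hasFDerivAt.comp v h1.hasFDerivAt

/-- **Sard.** For almost every `t` all critical points of `f + ⟨t, ·⟩` in `O` have a nondegenerate
second derivative (which is that of `f`). -/
theorem sard {n : ℕ} {f : V n → ℝ} {O : Set (V n)} (hf : ∀ v ∈ O, ContDiffAt ℝ 2 f v) :
    ∀ᵐ t : V n, ∀ v ∈ O, gd f v + t = 0 → (hs f v).det ≠ 0 := by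
  have h1 := addHaar_image_eq_zero_of_det_fderivWithin_eq_zero (volume : Measure (V n))
    (s := {v | v ∈ O ∧ (hs f v).det = 0}) (f := fun v => - gd f v) (f' := fun v => - hs f v)
    (fun v hv => (gd_der (hf v hv.1)).neg.hasFDerivWithinAt) (fun v hv => by
      have e : - hs f v = (-1 : ℝ) • hs f v := by
        ext w
        simp
      rw [e]
      have := LinearMap.det_smul (-1 : ℝ) (hs f v : V n →ₗ[ℝ] V n)
      show LinearMap.det ((((-1 : ℝ) • hs f v : V n →L[ℝ] V n)) : V n →ₗ[ℝ] V n) = 0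
      have e2 : (((-1 : ℝ) • hs f v : V n →L[ℝ] V n) : V n →ₗ[ℝ] V n)
        = (-1 : ℝ) • (hs f v : V n →ₗ[ℝ] V n) := rfl
      rw [e2, this]
      have h3 : LinearMap.det (hs f v : V n →ₗ[ℝ] V n) = 0 := hv.2
      rw [h3, mul_zero])
  have h2 : ∀ᵐ t : V n, t ∉ (fun v => - gd f v) '' {v | v ∈ O ∧ (hs f v).det = 0} :=
    measure_eq_zero_iff_ae_notMem.1 h1
  filter_upwards [h2] with t ht v hv h0 hd
  exact ht ⟨v, ⟨hv, hd⟩, by
    show - gd f v = t
    rw [← sub_eq_zero, ← neg_eq_zero]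
    rw [← h0]; abel⟩

theorem det_inj {n : ℕ} {A : V n →L[ℝ] V n} (h : A.det ≠ 0) {v : V n} (hv : A v = 0) : v = 0 := by
  have h1 : IsUnit (LinearMap.det (A : V n →ₗ[ℝ] V n)) := isUnit_iff_ne_zero.2 h
  have h2 := (LinearMap.isUnit_iff_isUnit_det _).2 h1
  have h3 := (Module.End.isUnit_iff _).1 h2
  exact h3.1 (by show A v = A 0; rw [hv, map_zero])

end Pool.Agent.V5helper21.FR
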